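import Pool.Agent.H20.TD.Zon

/-!
# [H32 ZC Cvx] THEOREM C (MP_e49dc9_ag): polyhedrality at `q` from polyhedrality in all directions

Pure convexity, `C` a closed convex cone in `ℝ ^ r` with interior points.
* `RatC C p`: near `p` the set `C` is defined by finitely many integral functionals.
* `Nq C q`: the span of the minimal face at `q`.
* `Tq C q`: the closure of `{D | D + t q ∈ C for some t}`.
* `cvx_ind`: the same with `RatC C (D + t q) ∨ Q (D + t q)` for a predicate `Q` (induction on the dimension of `Nq`, which is larger at `D + t q`).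
* `cvx`: if for all `D ∈ Tq C q` outside `Nq C q`: `D + t q ∈ C` and `RatC C (D + t q)` for large `t`, and there is an integral functional `φ₀ ≠ 0`, nonnegative on `C`, zero at `q`,
then `RatC C q`.
PROOF. `loc`: at `D + t q` the functionals `φ` which are zero there are nonnegative on `C` (convexity), zero at `q` (`t` can be decreased) and at `D`; near `D`: all `φ ≥ 0` imply
`D' + t q ∈ C`.  Compactness of the unit sphere of `Tq ∩ M` (`M` a complement of `Nq`): finitely many `φ`, one `t`.  If `D ∈ M` and all `φ D ≥ 0` then `D ∈ Tq`: last point of `Tq` on the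
segment from an interior point to `D`.  Near `q`: `x = q' + D'`, `q' ∈ Nq`, `D' ∈ M`: `x = (q' - t |D'| q) + (D' + t |D'| q)`.
-/

set_option autoImplicit false

namespace Pool.Agent.H32.ZC

open Pool.Agent.H20.TD

variable {r : ℕ}

/-- near `p` the set `C` is defined by finitely many integral functionals -/
def RatC (C : Set (Fin r → ℝ)) (p : Fin r → ℝ) : Prop :=
  ∃ (F : Finset (Fin r → ℤ)) (e : ℝ), 0 < e ∧ ∀ q, ‖q - p‖ < e → (q ∈ C ↔ ∀ φ ∈ F, 0 ≤ rv φ ⬝ᵥ q)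

/-- a closed convex cone with interior points -/
structure Cone (C : Set (Fin r → ℝ)) : Prop where
  cl : IsClosed C
  cv : Convex ℝ C
  sm : ∀ (a : ℝ) (x : Fin r → ℝ), 0 < a → x ∈ C → a • x ∈ C
  int : (interior C).Nonempty

theorem Cone.add {C : Set (Fin r → ℝ)} (hC : Cone C) {x y : Fin r → ℝ} (hx : x ∈ C) (hy : y ∈ C) : x + y ∈ C := by
  have h1 := hC.cv hx hy (a := 1 / 2) (b := 1 / 2) (by norm_num) (by norm_num) (by norm_num)
  have h2 := hC.sm 2 _ (by norm_num) h1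
  rw [smul_add, smul_smul, smul_smul] at h2
  norm_num at h2
  exact h2

theorem Cone.seg {C : Set (Fin r → ℝ)} (hC : Cone C) {x y : Fin r → ℝ} (hx : x ∈ C) (hy : x + y ∈ C) {s : ℝ} (h0 : 0 ≤ s)
    (h1 : s ≤ 1) : x + s • y ∈ C := by
  have h2 := hC.cv hx hy (a := 1 - s) (b := s) (by linarith) h0 (by ring)
  have e : (1 - s) • x + s • (x + y) = x + s • y := by
    rw [smul_add, sub_smul, one_smul]
    abel
  rwa [e] at h2

/-- the span of the minimal face at `q` -/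
def Nq {C : Set (Fin r → ℝ)} (hC : Cone C) {q : Fin r → ℝ} (hq : q ∈ C) : Submodule ℝ (Fin r → ℝ) where
  carrier := {v | ∃ ε : ℝ, 0 < ε ∧ q + ε • v ∈ C ∧ q + ε • (-v) ∈ C}
  zero_mem' := ⟨1, one_pos, by simpa using hq, by simpa using hq⟩
  add_mem' := by
    rintro v w ⟨a, ha, h1, h2⟩ ⟨b, hb, h3, h4⟩
    have key : ∀ x y : Fin r → ℝ, q + a • x ∈ C → q + b • y ∈ C → q + (min a b / 2) • (x + y) ∈ C := by
      intro x y hx hy
      have hm : 0 < min a b := lt_min ha hb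
      have k1 := hC.seg hq hx (s := min a b / a) (by positivity) (by rw [div_le_one ha]; exact min_le_left _ _)
      have k2 := hC.seg hq hy (s := min a b / b) (by positivity) (by rw [div_le_one hb]; exact min_le_right _ _)
      rw [smul_smul, div_mul_cancel₀ _ ha.ne'] at k1
      rw [smul_smul, div_mul_cancel₀ _ hb.ne'] at k2
      have k3 := hC.cv k1 k2 (a := 1 / 2) (b := 1 / 2) (by norm_num) (by norm_num) (by norm_num)
      have e : (1 / 2 : ℝ) • (q + min a b • x) + (1 / 2 : ℝ) • (q + min a b • y) = q + (min a b / 2) • (x + y) := by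
        rw [smul_add, smul_add, smul_smul, smul_smul, smul_add]
        have h5 : q = (1 / 2 : ℝ) • q + (1 / 2 : ℝ) • q := by
          rw [← add_smul]
          norm_num
        have h6 : (1 / 2 : ℝ) * min a b = min a b / 2 := by ring
        rw [h6]
        nth_rewrite 3 [h5]
        abel
      rwa [e] at k3
    refine ⟨min a b / 2, half_pos (lt_min ha hb), key v w h1 h3, ?_⟩
    rw [neg_add]
    exact key _ _ h2 h4
  smul_mem' := by
    rintro c v ⟨a, ha, h1, h2⟩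
    rcases lt_trichotomy c 0 with hc | hc | hc
    · refine ⟨a / (-c), div_pos ha (by linarith), ?_, ?_⟩
      · rw [smul_smul]
        have e : a / -c * c = -a := by rw [div_neg, neg_mul, div_mul_cancel₀ _ hc.ne]
        rw [e, neg_smul, ← smul_neg]
        exact h2
      · rw [← smul_neg, smul_smul]
        have e : a / -c * c = -a := by rw [div_neg, neg_mul, div_mul_cancel₀ _ hc.ne]
        rw [e, neg_smul, ← smul_neg, neg_neg]
        exact h1
    · rw [hc]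
      exact ⟨1, one_pos, by simpa using hq, by simpa using hq⟩
    · refine ⟨a / c, div_pos ha hc, ?_, ?_⟩
      · rw [smul_smul, div_mul_cancel₀ _ hc.ne']
        exact h1
      · rw [← smul_neg, smul_smul, div_mul_cancel₀ _ hc.ne']
        exact h2

/-- the tangent cone -/
def Tq (C : Set (Fin r → ℝ)) (q : Fin r → ℝ) : Set (Fin r → ℝ) := closure {D | ∃ t : ℝ, D + t • q ∈ C}

theorem mem_Nq {C : Set (Fin r → ℝ)} (hC : Cone C) {q : Fin r → ℝ} (hq : q ∈ C) {v : Fin r → ℝ} :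
    v ∈ Nq hC hq ↔ ∃ ε : ℝ, 0 < ε ∧ q + ε • v ∈ C ∧ q + ε • (-v) ∈ C := Iff.rfl

theorem self_Nq {C : Set (Fin r → ℝ)} (hC : Cone C) {q : Fin r → ℝ} (hq : q ∈ C) : q ∈ Nq hC hq := by
  refine ⟨1 / 2, by norm_num, ?_, ?_⟩
  · exact hC.add hq (hC.sm _ _ (by norm_num) hq)
  · have e : q + (1 / 2 : ℝ) • (-q) = (1 / 2 : ℝ) • q := by
      have h5 : q = (1 / 2 : ℝ) • q + (1 / 2 : ℝ) • q := by
        rw [← add_smul]
        norm_num
      rw [smul_neg]
      nth_rewrite 1 [h5]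
      abel
    rw [e]
    exact hC.sm _ _ (by norm_num) hq

/-- the functionals at a point of `C` which are zero there are nonnegative on `C` -/
private theorem nn_of_loc {C : Set (Fin r → ℝ)} (hC : Cone C) {p₀ : Fin r → ℝ} (hp : p₀ ∈ C) {φ : Fin r → ℤ} {e : ℝ} (he : 0 < e)
    (h1 : ∀ x ∈ C, ‖x - p₀‖ < e → 0 ≤ rv φ ⬝ᵥ x) (h0 : rv φ ⬝ᵥ p₀ = 0) : ∀ x ∈ C, 0 ≤ rv φ ⬝ᵥ x := by
  intro x hx
  obtain ⟨s, hs⟩ : ∃ s, s = min 1 (e / (2 * (‖x - p₀‖ + 1))) := ⟨_, rfl⟩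
  have hd : 0 < 2 * (‖x - p₀‖ + 1) := by positivity
  have hs0 : 0 < s := by
    rw [hs]
    exact lt_min one_pos (div_pos he hd)
  have hs1 : s ≤ 1 := by
    rw [hs]
    exact min_le_left _ _
  have h2 : p₀ + s • (x - p₀) ∈ C := hC.seg hp (by simpa using hx) hs0.le hs1
  have h3 : ‖p₀ + s • (x - p₀) - p₀‖ < e := by
    rw [add_sub_cancel_left, norm_smul, Real.norm_eq_abs, abs_of_pos hs0]
    have h4 : s ≤ e / (2 * (‖x - p₀‖ + 1)) := by
      rw [hs]
      exact min_le_right _ _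
    have h5 := mul_le_mul_of_nonneg_right h4 (norm_nonneg (x - p₀))
    have h6 : e / (2 * (‖x - p₀‖ + 1)) * ‖x - p₀‖ < e := by
      rw [div_mul_eq_mul_div, div_lt_iff₀ hd]
      nlinarith [norm_nonneg (x - p₀)]
    linarith
  have h4 := h1 _ h2 h3
  rw [dotProduct_add, dotProduct_smul, dotProduct_sub, h0, sub_zero, zero_add, smul_eq_mul] at h4
  exact nonneg_of_mul_nonneg_right h4 hs0

private theorem loc {C : Set (Fin r → ℝ)} (hC : Cone C) {q D : Fin r → ℝ} (hq : q ∈ C) {t₀ : ℝ}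
    (hD : ∀ t, t₀ ≤ t → D + t • q ∈ C ∧ RatC C (D + t • q)) :
    ∃ (Φ : Finset (Fin r → ℤ)) (t e : ℝ), 0 < e ∧ 0 ≤ t ∧ (∀ φ ∈ Φ, (∀ x ∈ C, 0 ≤ rv φ ⬝ᵥ x) ∧ rv φ ⬝ᵥ q = 0) ∧
      ∀ D', ‖D' - D‖ < e → (∀ φ ∈ Φ, 0 ≤ rv φ ⬝ᵥ D') → D' + t • q ∈ C := by
  classical
  obtain ⟨t, ht⟩ : ∃ t, t = max t₀ 0 + 1 := ⟨_, rfl⟩
  have ht0 : t₀ + 1 ≤ t := by
    rw [ht]
    linarith [le_max_left t₀ 0]
  have ht1 : 0 ≤ t := by
    rw [ht]
    linarith [le_max_right t₀ 0]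
  obtain ⟨hp, F, e, he, hF⟩ := hD t (by linarith)
  -- the functionals which are not zero
  have hpos : ∀ φ : Fin r → ℤ, φ ∈ F → rv φ ⬝ᵥ (D + t • q) ≠ 0 →
      ∃ e' : ℝ, 0 < e' ∧ ∀ x, ‖x - (D + t • q)‖ < e' → 0 ≤ rv φ ⬝ᵥ x := by
    intro φ hφ hne
    have h1 : 0 ≤ rv φ ⬝ᵥ (D + t • q) := (hF _ (by rw [sub_self, norm_zero]; exact he)).1 hp φ hφ
    have h2 : 0 < rv φ ⬝ᵥ (D + t • q) := lt_of_le_of_ne h1 (Ne.symm hne)
    have hcont : Continuous fun x : Fin r → ℝ => rv φ ⬝ᵥ x := by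
      unfold dotProduct
      fun_prop
    have h3 : ∀ᶠ x in nhds (D + t • q), 0 < rv φ ⬝ᵥ x := hcont.continuousAt.eventually (lt_mem_nhds h2)
    obtain ⟨e', he', h4⟩ := Metric.eventually_nhds_iff.1 h3
    refine ⟨e', he', fun x hx => (h4 ?_).le⟩
    rwa [dist_eq_norm]
  choose! g hg using hpos
  obtain ⟨e₁, he₁, hle⟩ : ∃ e₁ : ℝ, 0 < e₁ ∧ ∀ φ ∈ F, rv φ ⬝ᵥ (D + t • q) ≠ 0 → e₁ ≤ g φ := by
    rcases (F.filter fun φ => rv φ ⬝ᵥ (D + t • q) ≠ 0).eq_empty_or_nonempty with h1 | h1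
    · refine ⟨1, one_pos, fun φ h2 h3 => ?_⟩
      have : φ ∈ F.filter fun φ => rv φ ⬝ᵥ (D + t • q) ≠ 0 := Finset.mem_filter.2 ⟨h2, h3⟩
      rw [h1] at this
      simp at this
    · obtain ⟨φ₁, h2, h3⟩ := Finset.exists_min_image _ g h1
      refine ⟨g φ₁, (hg φ₁ (Finset.mem_filter.1 h2).1 (Finset.mem_filter.1 h2).2).1, fun φ h4 h5 => ?_⟩
      exact h3 φ (Finset.mem_filter.2 ⟨h4, h5⟩)
  refine ⟨F.filter fun φ => rv φ ⬝ᵥ (D + t • q) = 0, t, min e e₁, lt_min he he₁, ht1, ?_, ?_⟩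
  · intro φ hφ
    obtain ⟨h1, h2⟩ := Finset.mem_filter.1 hφ
    have h3 := nn_of_loc hC hp he (fun x hx hxe => (hF x hxe).1 hx φ h1) h2
    refine ⟨h3, le_antisymm ?_ (h3 q hq)⟩
    have h4 := h3 _ (hD (t - 1) (by linarith)).1
    have e3 : D + (t - 1) • q = (D + t • q) - q := by
      rw [sub_smul, one_smul]
      abel
    rw [e3, dotProduct_sub, h2] at h4
    linarith
  · intro D' h1 h2
    have e3 : D' + t • q - (D + t • q) = D' - D := by abel
    have h3 : ‖D' + t • q - (D + t • q)‖ < e := by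
      rw [e3]
      exact lt_of_lt_of_le h1 (min_le_left _ _)
    rw [hF _ h3]
    intro φ hφ
    by_cases h4 : rv φ ⬝ᵥ (D + t • q) = 0
    · have h5 := nn_of_loc hC hp he (fun x hx hxe => (hF x hxe).1 hx φ hφ) h4
      have h6 : rv φ ⬝ᵥ q = 0 := by
        refine le_antisymm ?_ (h5 q hq)
        have h7 := h5 _ (hD (t - 1) (by linarith)).1
        have e4 : D + (t - 1) • q = (D + t • q) - q := by
          rw [sub_smul, one_smul]
          abel
        rw [e4, dotProduct_sub, h4] at h7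
        linarith
      rw [dotProduct_add, dotProduct_smul, h6, smul_zero, add_zero]
      exact h2 φ (Finset.mem_filter.2 ⟨hφ, h4⟩)
    · refine (hg φ hφ h4).2 _ ?_
      rw [e3]
      exact lt_of_lt_of_le h1 ((min_le_right _ _).trans (hle φ hφ h4))

/-- `q` is in the interior of `C ∩ Nq` relative to `Nq` -/
theorem ball_Nq {C : Set (Fin r → ℝ)} (hC : Cone C) {q : Fin r → ℝ} (hq : q ∈ C) :
    ∃ ρ : ℝ, 0 < ρ ∧ ∀ w ∈ Nq hC hq, ‖w - q‖ < ρ → w ∈ C := by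
  classical
  obtain ⟨n, hn⟩ : ∃ n, n = Module.finrank ℝ (Nq hC hq) := ⟨_, rfl⟩
  obtain ⟨b⟩ : Nonempty (Module.Basis (Fin n) ℝ (Nq hC hq)) := ⟨by rw [hn]; exact Module.finBasis ℝ _⟩
  rcases Nat.eq_zero_or_pos n with h0 | h0
  · refine ⟨1, one_pos, fun w hw _ => ?_⟩
    subst h0
    have h1 : ∀ x : Nq hC hq, x = 0 := fun x => by
      have := b.sum_repr x
      simpa using this.symm
    have h2 : w = 0 := by
      have := congrArg Subtype.val (h1 ⟨w, hw⟩)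
      exact this
    have h3 : q = 0 := by
      have := congrArg Subtype.val (h1 ⟨q, self_Nq hC hq⟩)
      exact this
    rw [h2, ← h3]
    exact hq
  have hn0 : (0 : ℝ) < n := by exact_mod_cast h0
  have hev : ∀ i, ∀ᶠ v in nhds (0 : Nq hC hq), q + ((n : ℝ) * b.repr v i) • (b i : Fin r → ℝ) ∈ C := by
    intro i
    obtain ⟨ε, hε, h1, h2⟩ := (b i).2
    have hcont : Continuous fun v : Nq hC hq => (n : ℝ) * b.repr v i := by
      have h3 : Continuous (b.coord i) := LinearMap.continuous_of_finiteDimensional _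
      have h4 : (fun v : Nq hC hq => (n : ℝ) * b.repr v i) = fun v => (n : ℝ) * b.coord i v := rfl
      rw [h4]
      exact continuous_const.mul h3
    have h3 : ∀ᶠ v in nhds (0 : Nq hC hq), |(n : ℝ) * b.repr v i| < ε := by
      have h4 : Continuous fun v : Nq hC hq => |(n : ℝ) * b.repr v i| := hcont.abs
      refine h4.continuousAt.eventually (gt_mem_nhds ?_)
      simpa using hε
    refine h3.mono fun v hv => ?_
    rcases le_total 0 ((n : ℝ) * b.repr v i) with h4 | h4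
    · rw [abs_of_nonneg h4] at hv
      have h5 := hC.seg hq h1 (s := ((n : ℝ) * b.repr v i) / ε) (by positivity) (by rw [div_le_one hε]; exact hv.le)
      rwa [smul_smul, div_mul_cancel₀ _ hε.ne'] at h5
    · rw [abs_of_nonpos h4] at hv
      have h5 := hC.seg hq h2 (s := (-((n : ℝ) * b.repr v i)) / ε) (div_nonneg (by linarith) hε.le)
        (by rw [div_le_one hε]; exact hv.le)
      rwa [smul_smul, div_mul_cancel₀ _ hε.ne', smul_neg, neg_smul, neg_neg] at h5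
  obtain ⟨ρ, hρ, h1⟩ := Metric.eventually_nhds_iff.1 (Filter.eventually_all.2 hev)
  refine ⟨ρ, hρ, fun w hw hwq => ?_⟩
  obtain ⟨v, hv⟩ : ∃ v : Nq hC hq, (v : Fin r → ℝ) = w - q := ⟨⟨w - q, sub_mem hw (self_Nq hC hq)⟩, rfl⟩
  have h2 : dist v 0 < ρ := by
    rw [dist_zero_right]
    change ‖(v : Fin r → ℝ)‖ < ρ
    rwa [hv]
  have h3 := h1 h2
  have h4 := hC.cv.sum_mem (t := Finset.univ) (w := fun _ : Fin n => 1 / (n : ℝ))
    (z := fun i => q + ((n : ℝ) * b.repr v i) • (b i : Fin r → ℝ)) (fun i _ => by positivity)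
    (by rw [Finset.sum_const, Finset.card_univ, Fintype.card_fin, nsmul_eq_mul]; field_simp) (fun i _ => h3 i)
  have h5 : ∑ i : Fin n, (1 / (n : ℝ)) • (q + ((n : ℝ) * b.repr v i) • (b i : Fin r → ℝ)) = w := by
    have h6 : ∀ i : Fin n, (1 / (n : ℝ)) • (q + ((n : ℝ) * b.repr v i) • (b i : Fin r → ℝ)) =
        (1 / (n : ℝ)) • q + b.repr v i • (b i : Fin r → ℝ) := by
      intro i
      rw [smul_add, smul_smul]
      congr 2
      field_simp
    simp only [h6]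
    rw [Finset.sum_add_distrib, Finset.sum_const, Finset.card_univ, Fintype.card_fin]
    have h7 : ∑ i : Fin n, b.repr v i • (b i : Fin r → ℝ) = w - q := by
      have h8 : ((∑ i, b.repr v i • b i : Nq hC hq) : Fin r → ℝ) = ∑ i, b.repr v i • (b i : Fin r → ℝ) := by
        rw [AddSubmonoidClass.coe_finsetSum]
        rfl
      rw [← h8, b.sum_repr, hv]
    rw [h7, ← Nat.cast_smul_eq_nsmul ℝ, smul_smul]
    have h8 : (n : ℝ) * (1 / (n : ℝ)) = 1 := by field_simp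
    rw [h8, one_smul]
    abel
  rwa [h5] at h4

theorem cvx {C : Set (Fin r → ℝ)} (hC : Cone C) {q : Fin r → ℝ} (hq : q ∈ C) {φ₀ : Fin r → ℤ} (hφ : φ₀ ≠ 0)
    (hφ1 : ∀ x ∈ C, 0 ≤ rv φ₀ ⬝ᵥ x) (hφ2 : rv φ₀ ⬝ᵥ q = 0)
    (H : ∀ D ∈ Tq C q, D ∉ Nq hC hq → ∃ t₀ : ℝ, ∀ t, t₀ ≤ t → D + t • q ∈ C ∧ RatC C (D + t • q)) : RatC C q := by
  classical
  obtain ⟨M, hM⟩ := (Nq hC hq).exists_isCompl
  obtain ⟨π, hπ1, hπ2, hπ3⟩ : ∃ π : (Fin r → ℝ) →ₗ[ℝ] (Fin r → ℝ), (∀ x, π x ∈ M) ∧ (∀ x, x - π x ∈ Nq hC hq) ∧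
      ∀ x ∈ M, π x = x := by
    refine ⟨M.subtype.comp (M.projectionOnto (Nq hC hq) hM.symm), fun x => ?_, fun x => ?_, fun x hx => ?_⟩
    · rw [LinearMap.comp_apply]
      exact (M.projectionOnto (Nq hC hq) hM.symm x).2
    · rw [LinearMap.comp_apply]
      have h1 : x - M.subtype (M.projectionOnto (Nq hC hq) hM.symm x) ∈
          LinearMap.ker (M.projectionOnto (Nq hC hq) hM.symm) := by
        rw [LinearMap.mem_ker, map_sub, sub_eq_zero]
        exact (Submodule.projectionOnto_apply_left hM.symm (M.projectionOnto (Nq hC hq) hM.symm x)).symm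
      rwa [Submodule.ker_projectionOnto] at h1
    · rw [LinearMap.comp_apply]
      have := Submodule.projectionOnto_apply_left hM.symm ⟨x, hx⟩
      exact congrArg Subtype.val this
  have hcφ : ∀ φ : Fin r → ℤ, Continuous fun x : Fin r → ℝ => rv φ ⬝ᵥ x := fun φ => by
    unfold dotProduct
    fun_prop
  -- functionals
  have hzero : ∀ φ : Fin r → ℤ, (∀ x ∈ C, 0 ≤ rv φ ⬝ᵥ x) → rv φ ⬝ᵥ q = 0 → ∀ v ∈ Nq hC hq, rv φ ⬝ᵥ v = 0 := by
    rintro φ h1 h2 v ⟨ε, hε, h3, h4⟩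
    have h5 := h1 _ h3
    have h6 := h1 _ h4
    rw [dotProduct_add, dotProduct_smul, h2, zero_add, smul_eq_mul] at h5 h6
    rw [dotProduct_neg] at h6
    have h7 := nonneg_of_mul_nonneg_right h5 hε
    have h8 := nonneg_of_mul_nonneg_right h6 hε
    linarith
  have hpi : ∀ φ : Fin r → ℤ, (∀ x ∈ C, 0 ≤ rv φ ⬝ᵥ x) → rv φ ⬝ᵥ q = 0 → ∀ x, rv φ ⬝ᵥ (π x) = rv φ ⬝ᵥ x := by
    intro φ h1 h2 x
    have h3 := hzero φ h1 h2 _ (hπ2 x)
    rw [dotProduct_sub] at h3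
    linarith
  have hTC : ∀ D, (∃ t : ℝ, D + t • q ∈ C) → D ∈ Tq C q := fun D hD => subset_closure hD
  have hTN : ∀ D, (∃ t : ℝ, D + t • q ∈ C) → ∀ v ∈ Nq hC hq, ∃ t : ℝ, (D + v) + t • q ∈ C := by
    rintro D ⟨t, ht⟩ v ⟨ε, hε, h3, -⟩
    have h4 := hC.add ht (hC.sm ε⁻¹ _ (inv_pos.2 hε) h3)
    refine ⟨t + ε⁻¹, ?_⟩
    rw [smul_add, smul_smul, inv_mul_cancel₀ hε.ne', one_smul] at h4
    have e : (D + v) + (t + ε⁻¹) • q = D + t • q + (ε⁻¹ • q + v) := by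
      rw [add_smul]
      abel
    rwa [e]
  -- the compact set
  obtain ⟨K, hK⟩ : ∃ K : Set (Fin r → ℝ), K = {D | D ∈ Tq C q ∧ D ∈ M ∧ ‖D‖ = 1} := ⟨_, rfl⟩
  have hKc : IsCompact K := by
    have h1 : K = Metric.sphere (0 : Fin r → ℝ) 1 ∩ (Tq C q ∩ (M : Set (Fin r → ℝ))) := by
      rw [hK]
      ext D
      simp only [Set.mem_ofPred_eq, Set.mem_inter_iff, mem_sphere_iff_norm, sub_zero, SetLike.mem_coe]
      tauto
    rw [h1]
    exact (isCompact_sphere (0 : Fin r → ℝ) 1).inter_right (isClosed_closure.inter M.closed_of_finiteDimensional)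
  have hKN : ∀ D ∈ K, D ∉ Nq hC hq := by
    intro D hD hN
    rw [hK] at hD
    have h1 : D ∈ (Nq hC hq ⊓ M : Submodule ℝ (Fin r → ℝ)) := ⟨hN, hD.2.1⟩
    rw [hM.inf_eq_bot, Submodule.mem_bot] at h1
    have h2 := hD.2.2
    rw [h1, norm_zero] at h2
    exact one_ne_zero h2.symm
  have hloc : ∀ D ∈ K, ∃ (Φ : Finset (Fin r → ℤ)) (t e : ℝ), 0 < e ∧ 0 ≤ t ∧
      (∀ φ ∈ Φ, (∀ x ∈ C, 0 ≤ rv φ ⬝ᵥ x) ∧ rv φ ⬝ᵥ q = 0) ∧
      ∀ D', ‖D' - D‖ < e → (∀ φ ∈ Φ, 0 ≤ rv φ ⬝ᵥ D') → D' + t • q ∈ C := by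
    intro D hD
    have h1 : D ∈ Tq C q := by
      rw [hK] at hD
      exact hD.1
    obtain ⟨t₀, ht₀⟩ := H D h1 (hKN D hD)
    exact loc hC hq ht₀
  choose! Φ t e he ht hΦ hl using hloc
  obtain ⟨s, hsK, hs⟩ := hKc.elim_nhds_subcover (fun D => Metric.ball D (if D ∈ K then e D else 1)) fun D hD => by
    rw [if_pos hD]
    exact Metric.ball_mem_nhds D (he D hD)
  obtain ⟨Ψ, hΨ⟩ : ∃ Ψ : Finset (Fin r → ℤ), Ψ = insert φ₀ (s.biUnion Φ) := ⟨_, rfl⟩
  have hΨ1 : ∀ φ ∈ Ψ, (∀ x ∈ C, 0 ≤ rv φ ⬝ᵥ x) ∧ rv φ ⬝ᵥ q = 0 := by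
    intro φ h1
    rw [hΨ, Finset.mem_insert, Finset.mem_biUnion] at h1
    rcases h1 with h1 | ⟨D, h1, h2⟩
    · rw [h1]
      exact ⟨hφ1, hφ2⟩
    · exact hΦ D (hsK D h1) φ h2
  obtain ⟨τ, hτ0, hτ⟩ : ∃ τ : ℝ, 0 ≤ τ ∧ ∀ D ∈ s, t D ≤ τ := by
    refine ⟨∑ D ∈ s, t D, Finset.sum_nonneg fun D hD => ht D (hsK D hD), fun D hD => ?_⟩
    exact Finset.single_le_sum (fun D' hD' => ht D' (hsK D' hD')) hD
  -- near the points of `K`
  have hnear : ∀ D ∈ K, ∃ D₁ ∈ s, ‖D - D₁‖ < e D₁ := by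
    intro D hD
    have h1 := hs hD
    rw [Set.mem_iUnion₂] at h1
    obtain ⟨D₁, h2, h3⟩ := h1
    rw [if_pos (hsK D₁ h2), Metric.mem_ball, dist_eq_norm] at h3
    exact ⟨D₁, h2, h3⟩
  have hgood : ∀ D ∈ K, D + τ • q ∈ C := by
    intro D hD
    obtain ⟨D₁, h2, h3⟩ := hnear D hD
    have hT : D ∈ Tq C q := by
      rw [hK] at hD
      exact hD.1
    have h4 := hl D₁ (hsK D₁ h2) D h3 fun φ hφ' => by
      have h5 : IsClosed {x : Fin r → ℝ | 0 ≤ rv φ ⬝ᵥ x} := isClosed_le continuous_const (hcφ φ)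
      refine closure_minimal ?_ h5 hT
      rintro x ⟨t', hx⟩
      have h6 := (hΦ D₁ (hsK D₁ h2) φ hφ').1 _ hx
      rw [dotProduct_add, dotProduct_smul, (hΦ D₁ (hsK D₁ h2) φ hφ').2, smul_zero, add_zero] at h6
      exact h6
    rcases lt_or_eq_of_le (hτ D₁ h2) with h7 | h7
    · have h8 := hC.add h4 (hC.sm (τ - t D₁) _ (by linarith) hq)
      have e1 : D + t D₁ • q + (τ - t D₁) • q = D + τ • q := by
        rw [sub_smul]
        abel
      rwa [e1] at h8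
    · rwa [h7] at h4
  -- the functionals define the tangent cone
  have hdef : ∀ D ∈ M, D ≠ 0 → (∀ φ ∈ Ψ, 0 ≤ rv φ ⬝ᵥ D) → D + (τ * ‖D‖) • q ∈ C := by
    intro D hDM hD0 hDΨ
    have hnn : 0 < ‖D‖ := norm_pos_iff.2 hD0
    -- it is enough that `D` is in the tangent cone
    have hred : D ∈ Tq C q → D + (τ * ‖D‖) • q ∈ C := by
      intro hT
      have h1 : ‖D‖⁻¹ • D ∈ K := by
        rw [hK]
        refine ⟨?_, M.smul_mem _ hDM, ?_⟩
        · have h2 : Continuous fun x : Fin r → ℝ => ‖D‖⁻¹ • x := continuous_const_smul _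
          refine (h2.closure_preimage_subset _) ?_ |> fun h => h
          refine closure_mono ?_ hT
          rintro x ⟨t', hx⟩
          refine ⟨‖D‖⁻¹ * t', ?_⟩
          have h3 := hC.sm _ _ (inv_pos.2 hnn) hx
          rwa [smul_add, smul_smul] at h3
        · rw [norm_smul, norm_inv, norm_norm, inv_mul_cancel₀ hnn.ne']
      have h2 := hC.sm _ _ hnn (hgood _ h1)
      rwa [smul_add, smul_smul, smul_smul, mul_inv_cancel₀ hnn.ne', one_smul, mul_comm ‖D‖ τ] at h2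
    refine hred ?_
    -- an interior point
    obtain ⟨a₀, ha₀⟩ := hC.int
    have ha : ∃ t' : ℝ, π a₀ + t' • q ∈ C := by
      have h1 := hTN a₀ ⟨0, by rw [zero_smul, add_zero]; exact interior_subset ha₀⟩ _ (neg_mem (hπ2 a₀))
      have e1 : a₀ + -(a₀ - π a₀) = π a₀ := by abel
      rwa [e1] at h1
    have hφa : 0 < rv φ₀ ⬝ᵥ π a₀ := by
      rw [hpi φ₀ hφ1 hφ2]
      refine lt_of_le_of_ne (hφ1 _ (interior_subset ha₀)) fun h1 => ?_
      obtain ⟨ε, hε, hball⟩ := Metric.isOpen_iff.1 isOpen_interior a₀ ha₀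
      obtain ⟨i, hi⟩ := Function.ne_iff.1 hφ
      obtain ⟨δ, hδ⟩ : ∃ δ : Fin r → ℝ, δ = (-(ε / 2) * SignType.sign (rv φ₀ i) : ℝ) • (Pi.single i 1 : Fin r → ℝ) := ⟨_, rfl⟩
      have h2 : a₀ + δ ∈ Metric.ball a₀ ε := by
        rw [Metric.mem_ball, dist_eq_norm, add_sub_cancel_left, hδ, norm_smul, Pi.norm_single, norm_one, mul_one, norm_mul,
          norm_neg, Real.norm_eq_abs, abs_of_pos (half_pos hε)]
        have h3 : ‖((SignType.sign (rv φ₀ i) : SignType) : ℝ)‖ ≤ 1 := by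
          rcases SignType.sign (rv φ₀ i) with _ | _ | _ <;> simp
        nlinarith [norm_nonneg ((SignType.sign (rv φ₀ i) : SignType) : ℝ)]
      have h3 := hφ1 _ (interior_subset (hball h2))
      rw [dotProduct_add, ← h1, zero_add, hδ, dotProduct_smul, dotProduct_single, mul_one, smul_eq_mul] at h3
      have h4 : (SignType.sign (rv φ₀ i) : ℝ) * rv φ₀ i = |rv φ₀ i| := sign_mul_self _
      have h5 : 0 < |rv φ₀ i| := by
        rw [abs_pos]
        change (φ₀ i : ℝ) ≠ 0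
        exact_mod_cast hi
      have h6 : -(ε / 2) * (SignType.sign (rv φ₀ i) : ℝ) * rv φ₀ i = -(ε / 2) * |rv φ₀ i| := by
        rw [mul_assoc, h4]
      rw [h6] at h3
      have h7 := mul_pos (half_pos hε) h5
      linarith
    -- the last point on the segment
    obtain ⟨f, hf⟩ : ∃ f : ℝ → (Fin r → ℝ), f = fun s => (1 - s) • π a₀ + s • D := ⟨_, rfl⟩
    have hfc : Continuous f := by
      rw [hf]
      fun_prop
    obtain ⟨I, hI⟩ : ∃ I : Set ℝ, I = {s | s ∈ Set.Icc (0 : ℝ) 1 ∧ f s ∈ Tq C q} := ⟨_, rfl⟩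
    have hIc : IsCompact I := by
      have h1 : I = Set.Icc (0 : ℝ) 1 ∩ f ⁻¹' (Tq C q) := by
        rw [hI]
        rfl
      rw [h1]
      exact isCompact_Icc.inter_right (isClosed_closure.preimage hfc)
    have hI0 : (0 : ℝ) ∈ I := by
      rw [hI]
      refine ⟨⟨le_rfl, zero_le_one⟩, ?_⟩
      rw [hf]
      simp only [sub_zero, one_smul, zero_smul, add_zero]
      exact hTC _ ha
    obtain ⟨σ, hσI, hσ⟩ := hIc.exists_isGreatest ⟨0, hI0⟩
    have hσ2 : σ ∈ Set.Icc (0 : ℝ) 1 ∧ f σ ∈ Tq C q := by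
      rw [hI] at hσI
      exact hσI
    have hfφ : ∀ φ ∈ Ψ, ∀ s ∈ Set.Icc (0 : ℝ) 1, 0 ≤ rv φ ⬝ᵥ f s := by
      intro φ hφ' s' hs'
      obtain ⟨t', ht'⟩ := ha
      have h1 := (hΨ1 φ hφ').1 _ ht'
      rw [dotProduct_add, dotProduct_smul, (hΨ1 φ hφ').2, smul_zero, add_zero] at h1
      rw [hf]
      simp only [dotProduct_add, dotProduct_smul, smul_eq_mul]
      exact add_nonneg (mul_nonneg (by linarith [hs'.2]) h1) (mul_nonneg hs'.1 (hDΨ φ hφ'))
    have hfM : ∀ s, f s ∈ M := fun s' => by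
      rw [hf]
      exact M.add_mem (M.smul_mem _ (hπ1 a₀)) (M.smul_mem _ hDM)
    by_contra hnot
    have hσ1 : σ < 1 := by
      refine lt_of_le_of_ne hσ2.1.2 fun h1 => hnot ?_
      have h2 := hσ2.2
      rw [h1, hf] at h2
      simpa using h2
    have hfσ : f σ ≠ 0 := by
      intro h1
      have h2 : 0 < rv φ₀ ⬝ᵥ f σ := by
        rw [hf]
        simp only [dotProduct_add, dotProduct_smul, smul_eq_mul]
        have h3 := hDΨ φ₀ (by rw [hΨ]; exact Finset.mem_insert_self _ _)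
        have h4 := mul_nonneg hσ2.1.1 h3
        have h5 := mul_pos (show 0 < 1 - σ by linarith) hφa
        linarith
      rw [h1, dotProduct_zero] at h2
      exact lt_irrefl _ h2
    have hfn : 0 < ‖f σ‖ := norm_pos_iff.2 hfσ
    have hK1 : ‖f σ‖⁻¹ • f σ ∈ K := by
      rw [hK]
      refine ⟨?_, M.smul_mem _ (hfM σ), ?_⟩
      · have h2 : Continuous fun x : Fin r → ℝ => ‖f σ‖⁻¹ • x := continuous_const_smul _
        refine (h2.closure_preimage_subset _) ?_ |> fun h => h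
        refine closure_mono ?_ hσ2.2
        rintro x ⟨t', hx⟩
        refine ⟨‖f σ‖⁻¹ * t', ?_⟩
        have h3 := hC.sm _ _ (inv_pos.2 hfn) hx
        rwa [smul_add, smul_smul] at h3
      · rw [norm_smul, norm_inv, norm_norm, inv_mul_cancel₀ hfn.ne']
    obtain ⟨D₁, hD₁, hd⟩ := hnear _ hK1
    have hev : ∀ᶠ s' in nhds σ, ‖‖f σ‖⁻¹ • f s' - D₁‖ < e D₁ := by
      have h1 : Continuous fun s' => ‖‖f σ‖⁻¹ • f s' - D₁‖ := by fun_prop
      exact h1.continuousAt.eventually (gt_mem_nhds hd)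
    obtain ⟨ε, hε, hball⟩ := Metric.eventually_nhds_iff.1 hev
    obtain ⟨s', hs'⟩ : ∃ s', s' = σ + min (ε / 2) (1 - σ) := ⟨_, rfl⟩
    have hm0 : 0 < min (ε / 2) (1 - σ) := lt_min (half_pos hε) (by linarith)
    have hs1 : s' ∈ Set.Icc (0 : ℝ) 1 := by
      rw [hs']
      constructor
      · linarith [hσ2.1.1]
      · linarith [min_le_right (ε / 2) (1 - σ)]
    have hs2 : dist s' σ < ε := by
      rw [hs', Real.dist_eq, add_sub_cancel_left, abs_of_pos hm0]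
      linarith [min_le_left (ε / 2) (1 - σ)]
    have h1 := hl D₁ (hsK D₁ hD₁) _ (hball hs2) fun φ hφ' => by
      rw [dotProduct_smul, smul_eq_mul]
      refine mul_nonneg (inv_pos.2 hfn).le (hfφ φ ?_ s' hs1)
      rw [hΨ]
      exact Finset.mem_insert_of_mem (Finset.mem_biUnion.2 ⟨D₁, hD₁, hφ'⟩)
    have h2 : f s' ∈ Tq C q := by
      refine hTC _ ⟨‖f σ‖ * t D₁, ?_⟩
      have h3 := hC.sm _ _ hfn h1
      rwa [smul_add, smul_smul, smul_smul, mul_inv_cancel₀ hfn.ne', one_smul] at h3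
    have h3 : s' ∈ I := by
      rw [hI]
      exact ⟨hs1, h2⟩
    have h4 := hσ h3
    rw [hs'] at h4
    linarith
  -- the end
  obtain ⟨ρ, hρ, hball⟩ := ball_Nq hC hq
  have hcont : Continuous fun x : Fin r → ℝ => ‖x - π x - (τ * ‖π x‖) • q - q‖ := by
    have h1 : Continuous π := LinearMap.continuous_of_finiteDimensional π
    fun_prop
  have hπq : π q = 0 := by
    have h1 : π q ∈ Nq hC hq := by
      have h2 := sub_mem (self_Nq hC hq) (hπ2 q)
      rwa [sub_sub_cancel] at h2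
    have h2 : π q ∈ (Nq hC hq ⊓ M : Submodule ℝ (Fin r → ℝ)) := ⟨h1, hπ1 q⟩
    rwa [hM.inf_eq_bot, Submodule.mem_bot] at h2
  have hev : ∀ᶠ x in nhds q, ‖x - π x - (τ * ‖π x‖) • q - q‖ < ρ := by
    refine hcont.continuousAt.eventually (gt_mem_nhds ?_)
    simp only [hπq, norm_zero, mul_zero, zero_smul, sub_zero, sub_self]
    exact hρ
  obtain ⟨ε, hε, hε1⟩ := Metric.eventually_nhds_iff.1 hev
  refine ⟨Ψ, ε, hε, fun x hx => ⟨fun h1 φ hφ' => (hΨ1 φ hφ').1 x h1, fun h1 => ?_⟩⟩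
  have h2 := hε1 (show dist x q < ε by rwa [dist_eq_norm])
  have h3 : x - π x - (τ * ‖π x‖) • q ∈ C :=
    hball _ (sub_mem (hπ2 x) ((Nq hC hq).smul_mem _ (self_Nq hC hq))) h2
  by_cases h4 : π x = 0
  · rw [h4, norm_zero, mul_zero, zero_smul, sub_zero, sub_zero] at h3
    exact h3
  · have h5 := hdef _ (hπ1 x) h4 fun φ hφ' => by
      rw [hpi φ (hΨ1 φ hφ').1 (hΨ1 φ hφ').2]
      exact h1 φ hφ'
    have h6 := hC.add h3 h5
    have e1 : x - π x - (τ * ‖π x‖) • q + (π x + (τ * ‖π x‖) • q) = x := by abel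
    rwa [e1] at h6

/-- the face at `D + t q` is larger -/
theorem Nq_lt {C : Set (Fin r → ℝ)} (hC : Cone C) {q D : Fin r → ℝ} (hq : q ∈ C) (hD : D ∉ Nq hC hq) {t₀ : ℝ}
    (ht₀ : ∀ t, t₀ ≤ t → D + t • q ∈ C) {t : ℝ} (ht : max t₀ 0 + 1 ≤ t) (hDt : D + t • q ∈ C) :
    Module.finrank ℝ (Nq hC hq) < Module.finrank ℝ (Nq hC hDt) := by
  obtain ⟨u, hu⟩ : ∃ u, u = max t₀ 0 := ⟨_, rfl⟩
  rw [← hu] at ht
  have hu0 : 0 ≤ u := by
    rw [hu]
    exact le_max_right _ _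
  have hut : t₀ ≤ u := by
    rw [hu]
    exact le_max_left _ _
  have hle : Nq hC hq ≤ Nq hC hDt := by
    rintro v ⟨ε, hε, h1, h2⟩
    have key : ∀ w : Fin r → ℝ, q + ε • w ∈ C → (D + t • q) + ((t - u) * ε) • w ∈ C := by
      intro w hw
      have h3 := hC.add (ht₀ u hut) (hC.sm (t - u) _ (by linarith) hw)
      have e : D + u • q + (t - u) • (q + ε • w) = (D + t • q) + ((t - u) * ε) • w := by
        rw [smul_add, smul_smul, sub_smul t u q]
        abel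
      rwa [e] at h3
    exact ⟨(t - u) * ε, mul_pos (by linarith) hε, key v h1, key (-v) h2⟩
  have hDN : D ∈ Nq hC hDt := by
    obtain ⟨ε, hε0, hε1, hε2⟩ : ∃ ε : ℝ, 0 < ε ∧ ε ≤ 1 / 2 ∧ u * (1 + ε) ≤ t := by
      refine ⟨min (1 / 2) (1 / (u + 1)), by positivity, min_le_left _ _, ?_⟩
      have h1 : u * min (1 / 2) (1 / (u + 1)) ≤ u * (1 / (u + 1)) := mul_le_mul_of_nonneg_left (min_le_right _ _) hu0
      have h2 : u * (1 / (u + 1)) ≤ 1 := by
        rw [mul_one_div, div_le_one (by linarith)]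
        linarith
      linarith [mul_add u 1 (min (1 / 2) (1 / (u + 1)))]
    refine ⟨ε, hε0, ?_, ?_⟩
    · have h1 := hC.sm (1 + ε) _ (by linarith) (ht₀ (t / (1 + ε)) (hut.trans (by rw [le_div_iff₀ (by linarith)]; exact hε2)))
      have e : (1 + ε) • (D + (t / (1 + ε)) • q) = D + t • q + ε • D := by
        rw [smul_add, smul_smul, mul_div_cancel₀ _ (show (1 + ε) ≠ 0 by linarith), add_smul, one_smul]
        abel
      rwa [e] at h1
    · have h1 := hC.sm (1 - ε) _ (by linarith) (ht₀ (t / (1 - ε)) (hut.trans (by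
        rw [le_div_iff₀ (by linarith)]
        nlinarith)))
      have e : (1 - ε) • (D + (t / (1 - ε)) • q) = D + t • q + ε • (-D) := by
        rw [smul_add, smul_smul, mul_div_cancel₀ _ (show (1 - ε) ≠ 0 by linarith), sub_smul, one_smul, smul_neg]
        abel
      rwa [e] at h1
  exact Submodule.finrank_lt_finrank_of_lt (lt_of_le_of_ne hle fun h1 => hD (by rw [h1]; exact hDN))

theorem cvx_ind {C : Set (Fin r → ℝ)} (hC : Cone C) {Q : (Fin r → ℝ) → Prop}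
    (h0 : ∀ q ∈ C, Q q → ∃ φ₀ : Fin r → ℤ, φ₀ ≠ 0 ∧ (∀ x ∈ C, 0 ≤ rv φ₀ ⬝ᵥ x) ∧ rv φ₀ ⬝ᵥ q = 0)
    (H : ∀ (q : Fin r → ℝ) (hq : q ∈ C), Q q → ∀ D ∈ Tq C q, D ∉ Nq hC hq →
      ∃ t₀ : ℝ, ∀ t, t₀ ≤ t → D + t • q ∈ C ∧ (RatC C (D + t • q) ∨ Q (D + t • q))) :
    ∀ q ∈ C, Q q → RatC C q := by
  have key : ∀ (n : ℕ) (q : Fin r → ℝ) (hq : q ∈ C), r - Module.finrank ℝ (Nq hC hq) ≤ n → Q q → RatC C q := by
    intro n
    induction n with
    | zero =>
      intro q hq hn hQ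
      obtain ⟨φ₀, h1, h2, h3⟩ := h0 q hq hQ
      refine cvx hC hq h1 h2 h3 fun D hD hN => ?_
      obtain ⟨t₀, ht₀⟩ := H q hq hQ D hD hN
      exfalso
      have h4 := Nq_lt hC hq hN (t := max t₀ 0 + 1) (fun t ht => (ht₀ t ht).1) le_rfl
        (ht₀ _ (by linarith [le_max_left t₀ 0])).1
      have h5 := Submodule.finrank_le (Nq hC (ht₀ (max t₀ 0 + 1) (by linarith [le_max_left t₀ 0])).1)
      rw [Module.finrank_fin_fun] at h5
      omega
    | succ n ih =>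
      intro q hq hn hQ
      obtain ⟨φ₀, h1, h2, h3⟩ := h0 q hq hQ
      refine cvx hC hq h1 h2 h3 fun D hD hN => ?_
      obtain ⟨t₀, ht₀⟩ := H q hq hQ D hD hN
      refine ⟨max t₀ 0 + 1, fun t ht => ?_⟩
      have ht' : t₀ ≤ t := by linarith [le_max_left t₀ 0]
      refine ⟨(ht₀ t ht').1, ?_⟩
      rcases (ht₀ t ht').2 with h4 | h4
      · exact h4
      · refine ih _ (ht₀ t ht').1 ?_ h4
        have h5 := Nq_lt hC hq hN (fun t ht => (ht₀ t ht).1) ht (ht₀ t ht').1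
        omega
  intro q hq hQ
  exact key _ q hq le_rfl hQ

end Pool.Agent.H32.ZC
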